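import Mathlib

/-!
# MP_cd64ef_nt: the Kneser-type extension of Pollard's theorem, as stated, is false for `t > |H|`

Two counterexamples to the structural part of the statement.
* `G = ℤ/6`, `A = B = {0, 1, 3, 4}`, `t = 3`: `A +_3 B = {1, 4}`, `H = {0, 3}`, `u = 1`, but
  `A +_1 B = G`.
* `G = ℤ/5 × ℤ/4`, `A = {(0,0), (0,2)} ∪ {1} × ℤ/4`, `B = {0} × ℤ/4 ∪ {(1,0), (1,2)}`, `t = 5`:
  `A +_5 B = {(1,0), (1,2)}`, `H = {(0,0), (0,2)}`, `u = 1`, but `A + B = {0, 1, 2} × ℤ/4` has the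
  stabilizer `{0} × ℤ/4`.
-/

set_option autoImplicit false

open Finset
open scoped Pointwise

namespace Pool.Agent.Results.MP_cd64ef_nt.StructureFails

/-- the number of pairs `(a, b) ∈ A × B` with `a + b = g` -/
def rep {G : Type*} [AddCommGroup G] [DecidableEq G] (A B : Finset G) (g : G) : ℕ :=
  ((A ×ˢ B).filter (fun p => p.1 + p.2 = g)).card

/-- `A +_i B = {g : rep A B g ≥ i}` for `i ≥ 1`; as a finite set: the elements of `A + B` with at
least `i` representations -/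
def pop {G : Type*} [AddCommGroup G] [DecidableEq G] (A B : Finset G) (i : ℕ) : Finset G :=
  (A + B).filter (fun g => i ≤ rep A B g)

/-- the stabilizer `{e : e + X = X}` -/
def stab {G : Type*} [AddCommGroup G] [DecidableEq G] (X : Finset G) : Set G :=
  {e | X.image (fun x => e + x) = X}

/-- the hypothesis: `|A|, |B| ≥ t` and `∑_{i=1}^t |A +_i B| < t |A| + t |B| - t²` -/
def Hyp {G : Type*} [AddCommGroup G] [DecidableEq G] (t : ℕ) (A B : Finset G) : Prop :=
  1 ≤ t ∧ t ≤ A.card ∧ t ≤ B.card ∧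
    ((∑ i ∈ Icc 1 t, (pop A B i).card : ℕ) : ℤ) < t * A.card + t * B.card - t ^ 2

/-- the structural conclusion, for a set `H` (the stabilizer) and `u` -/
def Struct {G : Type*} [AddCommGroup G] [DecidableEq G] (A B : Finset G) (H : Set G) (u : ℕ) : Prop :=
  ∃ A' ⊆ A, ∃ B' ⊆ B, (A \ A').card + (B \ B').card < u ∧ A' + B' = pop A' B' u ∧
    pop A' B' u = pop A B u ∧ stab (A' + B') = H ∧ stab (pop A' B' u) = H

/-- the lower bound `∑_{i=1}^t |A +_i B| ≥ t |A| + t |B| - t² - u (|H| - u)` -/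
def Bound {G : Type*} [AddCommGroup G] [DecidableEq G] (t : ℕ) (A B : Finset G) (H : Set G) (u : ℕ) :
    Prop :=
  (t * A.card + t * B.card - t ^ 2 - u * ((H.ncard : ℤ) - u) : ℤ) ≤
    ((∑ i ∈ Icc 1 t, (pop A B i).card : ℕ) : ℤ)

/-- the statement of the problem -/
def Q1 : Prop :=
  ∀ (t : ℕ) (G : Type) [AddCommGroup G] [DecidableEq G] (A B : Finset G), Hyp t A B →
    ∀ s u : ℕ, t = s * (stab (pop A B t)).ncard + u → 1 ≤ u → u ≤ (stab (pop A B t)).ncard →
      Struct A B (stab (pop A B t)) u ∧ Bound t A B (stab (pop A B t)) u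

/-- if `u = 1` then nothing can be removed -/
theorem struct_one {G : Type*} [AddCommGroup G] [DecidableEq G] {A B : Finset G} {H : Set G}
    (h : Struct A B H 1) : stab (A + B) = H := by
  obtain ⟨A', hA, B', hB, hcard, -, -, h1, -⟩ := h
  have h2 : A \ A' = ∅ := card_eq_zero.1 (by omega)
  have h3 : B \ B' = ∅ := card_eq_zero.1 (by omega)
  rw [sdiff_eq_empty_iff_subset] at h2 h3
  rw [← h1, subset_antisymm hA h2, subset_antisymm hB h3]

/-- the first example -/
def A1 : Finset (ZMod 6) := {0, 1, 3, 4}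

theorem stab1 : stab (pop A1 A1 3) = (({0, 3} : Finset (ZMod 6)) : Set (ZMod 6)) := by
  ext e
  rw [mem_coe]
  show (pop A1 A1 3).image (fun x => e + x) = pop A1 A1 3 ↔ _
  revert e
  decide

theorem ncard1 : (stab (pop A1 A1 3)).ncard = 2 := by
  rw [stab1, Set.ncard_coe_finset]
  decide

/-- the second example -/
def A2 : Finset (ZMod 5 × ZMod 4) := {(0, 0), (0, 2), (1, 0), (1, 1), (1, 2), (1, 3)}

/-- the second example -/
def B2 : Finset (ZMod 5 × ZMod 4) := {(0, 0), (0, 1), (0, 2), (0, 3), (1, 0), (1, 2)}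

theorem pop2 : pop A2 B2 5 = {(1, 0), (1, 2)} := by decide +kernel

theorem stab2 : stab (pop A2 B2 5) =
    (({(0, 0), (0, 2)} : Finset (ZMod 5 × ZMod 4)) : Set (ZMod 5 × ZMod 4)) := by
  ext e
  rw [mem_coe, pop2]
  show ({(1, 0), (1, 2)} : Finset (ZMod 5 × ZMod 4)).image (fun x => e + x) = {(1, 0), (1, 2)} ↔ _
  revert e
  decide +kernel

theorem ncard2 : (stab (pop A2 B2 5)).ncard = 2 := by
  rw [stab2, Set.ncard_coe_finset]
  decide

theorem hyp1 : Hyp 3 A1 A1 := by
  refine ⟨by norm_num, by decide, by decide, ?_⟩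
  have h1 : (∑ i ∈ Icc 1 3, (pop A1 A1 i).card) = 14 := by decide +kernel
  have h2 : A1.card = 4 := by decide
  rw [h1, h2]
  norm_num

theorem hyp2 : Hyp 5 A2 B2 := by
  refine ⟨by norm_num, by decide, by decide, ?_⟩
  have h1 : (∑ i ∈ Icc 1 5, (pop A2 B2 i).card) = 34 := by decide +kernel
  have h2 : A2.card = 6 := by decide
  have h3 : B2.card = 6 := by decide
  rw [h1, h2, h3]
  norm_num

theorem not_struct1 : ¬ Struct A1 A1 (stab (pop A1 A1 3)) 1 := by
  intro h
  have h1 := struct_one h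
  rw [stab1] at h1
  have h2 : (1 : ZMod 6) ∈ stab (A1 + A1) := by
    show (A1 + A1).image (fun x => 1 + x) = A1 + A1
    decide +kernel
  rw [h1] at h2
  revert h2
  rw [mem_coe]
  decide

theorem not_struct2 : ¬ Struct A2 B2 (stab (pop A2 B2 5)) 1 := by
  intro h
  have h1 := struct_one h
  rw [stab2] at h1
  have h2 : ((0, 1) : ZMod 5 × ZMod 4) ∈ stab (A2 + B2) := by
    show (A2 + B2).image (fun x => (0, 1) + x) = A2 + B2
    decide +kernel
  rw [h1] at h2
  revert h2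
  rw [mem_coe]
  decide

/-- The statement Q1 is false. Moreover its hypothesis holds and its structural conclusion fails
(with `u = 1`, `|H| = 2`) in `ℤ/6` with `t = 3`, and in `ℤ/5 × ℤ/4` with `t = 5` for sets `A`, `B`
with `A + B ≠ G`. -/
theorem result :
    ¬ Q1 ∧
    (∃ A : Finset (ZMod 6), Hyp 3 A A ∧ (stab (pop A A 3)).ncard = 2 ∧
      ¬ Struct A A (stab (pop A A 3)) 1) ∧
    (∃ A B : Finset (ZMod 5 × ZMod 4), Hyp 5 A B ∧ (stab (pop A B 5)).ncard = 2 ∧
      A + B ≠ univ ∧ ¬ Struct A B (stab (pop A B 5)) 1) := by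
  refine ⟨?_, ⟨A1, hyp1, ncard1, not_struct1⟩, A2, B2, hyp2, ncard2, by decide +kernel, not_struct2⟩
  intro h
  have h1 := h 3 (ZMod 6) A1 A1 hyp1 1 1 (by rw [ncard1]) le_rfl (by rw [ncard1]; norm_num)
  exact not_struct1 h1.1

end Pool.Agent.Results.MP_cd64ef_nt.StructureFails
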